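import Pool.Agent.Helper59.LUC.Goals

set_option autoImplicit false

namespace Pool.Agent.Helper59.LUC

namespace PkLT3

theorem thm : G_LT3 := by
  intro ι κ _ _ _ G hG
  -- the columns span
  have hspan : Submodule.span ℂ (Set.range fun c : κ => fun i : ι => G i c) = ⊤ := by
    by_contra hne
    obtain ⟨f, hf0, hf⟩ := Submodule.exists_le_ker_of_lt_top _ (lt_top_iff_ne_top.mpr hne)
    apply hf0
    have hp := hG (fun i => f (Pi.single i 1)) ?_
    · apply LinearMap.pi_ext'
      intro i
      ext
      have := congrFun hp i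
      simpa using this
    · intro c
      have h1 : f (fun i : ι => G i c) = 0 := by
        have : (fun i : ι => G i c) ∈ LinearMap.ker f := hf (Submodule.subset_span ⟨c, rfl⟩)
        simpa using this
      have h2 : (fun i : ι => G i c) = ∑ i, G i c • (Pi.single i (1 : ℂ) : ι → ℂ) := by
        ext j
        simp [Finset.sum_apply, Pi.single_apply]
      rw [h2, map_sum] at h1
      rw [← h1]
      apply Finset.sum_congr rfl
      intro i _
      rw [map_smul, smul_eq_mul, mul_comm]
  obtain ⟨s, hs1, hs2, hs3⟩ := exists_linearIndependent ℂ (Set.range fun c : κ => fun i : ι => G i c)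
  rw [hspan] at hs2
  let B : Module.Basis s ℂ (ι → ℂ) := Module.Basis.mk hs3 (by rw [Subtype.range_coe, hs2])
  let e : s ≃ ι := B.indexEquiv (Pi.basisFun ℂ ι)
  have hf : ∀ j : ι, ∃ c : κ, (fun i : ι => G i c) = ((e.symm j : s) : ι → ℂ) := by
    intro j
    obtain ⟨c, hc⟩ := hs1 (e.symm j).2
    exact ⟨c, hc⟩
  choose f hf using hf
  refine ⟨f, ?_⟩
  have hli : LinearIndependent ℂ (Matrix.of fun i j : ι => G i (f j)).col := by
    have h1 : (Matrix.of fun i j : ι => G i (f j)).col = (fun x : s => (x : ι → ℂ)) ∘ e.symm := by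
      funext j
      exact hf j
    rw [h1]
    exact hs3.comp _ e.symm.injective
  rw [Matrix.linearIndependent_cols_iff_isUnit] at hli
  exact ((Matrix.isUnit_iff_isUnit_det _).mp hli).ne_zero

end PkLT3

end Pool.Agent.Helper59.LUC
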