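import Pool.Agent.Helper59.LUC.Goals

set_option autoImplicit false

namespace Pool.Agent.Helper59.LUC

namespace PkRED

lemma dvd_of_sq (d g z : ℕ) (hd : Squarefree d) (hg : 0 < g) (h : g ^ 2 ∣ d * z ^ 2) : g ∣ z := by
  obtain ⟨g', z', hc, e1, e2⟩ := Nat.exists_coprime g z
  have hh : 0 < Nat.gcd g z := Nat.gcd_pos_of_pos_left z hg
  set h' := Nat.gcd g z with hh'
  have h1 : g' ^ 2 ∣ d * z' ^ 2 := by
    rw [e1, e2] at h
    have h2 : (g' * h') ^ 2 = h' ^ 2 * g' ^ 2 := by ring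
    have h3 : d * (z' * h') ^ 2 = h' ^ 2 * (d * z' ^ 2) := by ring
    rw [h2, h3] at h
    exact Nat.dvd_of_mul_dvd_mul_left (pow_pos hh 2) h
  have h2 : Nat.Coprime (g' ^ 2) (z' ^ 2) := Nat.Coprime.pow 2 2 hc
  have h3 : g' ^ 2 ∣ d := h2.dvd_of_dvd_mul_right h1
  have h4 : IsUnit g' := hd g' (by rw [← pow_two]; exact h3)
  have h5 : g' = 1 := Nat.isUnit_iff.mp h4
  rw [e1, e2, h5, one_mul]
  exact Dvd.intro_left z' rfl

lemma dvd_of_sq_int (d : ℕ) (g z : ℤ) (hd : Squarefree d) (hg : 0 < g)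
    (h : g ^ 2 ∣ (d : ℤ) * z ^ 2) : g ∣ z := by
  rw [← Int.natAbs_dvd_natAbs] at h ⊢
  apply dvd_of_sq d g.natAbs z.natAbs hd (by omega)
  rw [Int.natAbs_pow, Int.natAbs_mul, Int.natAbs_pow, Int.natAbs_natCast] at h
  exact h

theorem thm : G_RED := by
  intro d a b η hd hab hη hru
  obtain ⟨c, x, y, hc, hx, hy⟩ : ∃ c x y : ℤ, 0 < c ∧ (a * c = x) ∧ (b * c = y) := by
    refine ⟨(a.den : ℤ) * b.den, a.num * b.den, b.num * a.den, ?_, ?_, ?_⟩
    · have := a.den_pos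
      have := b.den_pos
      positivity
    · push_cast
      have h := Rat.mul_den_eq_num a
      linear_combination (b.den : ℚ) * h
    · push_cast
      have h := Rat.mul_den_eq_num b
      linear_combination (a.den : ℚ) * h
  have hcx : x ^ 2 + d * y ^ 2 = c ^ 2 := by
    have h : ((x ^ 2 + d * y ^ 2 : ℤ) : ℚ) = ((c ^ 2 : ℤ) : ℚ) := by
      push_cast
      rw [← hx, ← hy]
      linear_combination (c : ℚ) ^ 2 * hab
    exact_mod_cast h
  have hgpos : 0 < Int.gcd (2 * x) c := Int.gcd_pos_of_ne_zero_right _ hc.ne'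
  obtain ⟨T, M, hTM, e1, e2⟩ := Int.exists_gcd_one hgpos
  set g : ℤ := (Int.gcd (2 * x) c : ℤ) with hgdef
  have hg : 0 < g := by
    rw [hgdef]
    exact_mod_cast hgpos
  have hM0 : 0 < M := by
    by_contra hcon
    have : M * g ≤ 0 := mul_nonpos_of_nonpos_of_nonneg (by omega) hg.le
    omega
  have hdv : g ^ 2 ∣ (d : ℤ) * (2 * y) ^ 2 := by
    refine ⟨4 * M ^ 2 - T ^ 2, ?_⟩
    have h1 : (d : ℤ) * (2 * y) ^ 2 = 4 * c ^ 2 - (2 * x) ^ 2 := by linear_combination 4 * hcx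
    rw [h1, e1, e2]
    ring
  obtain ⟨m, hm⟩ := dvd_of_sq_int d g (2 * y) hd hg hdv
  have hmain : 4 * M ^ 2 - T ^ 2 = (d : ℤ) * m ^ 2 := by
    have h1 : (d : ℤ) * (2 * y) ^ 2 = 4 * c ^ 2 - (2 * x) ^ 2 := by linear_combination 4 * hcx
    rw [hm, e1] at h1
    have h2 : g ^ 2 * (4 * M ^ 2 - T ^ 2) = g ^ 2 * ((d : ℤ) * m ^ 2) := by
      have h3 : c ^ 2 = (M * g) ^ 2 := by rw [← e2]
      rw [h3] at h1
      linear_combination -h1
    exact mul_left_cancel₀ (pow_ne_zero 2 hg.ne') h2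
  -- quadratic equation
  have hq : η ^ 2 - 2 * (a : ℂ) * η + 1 = 0 := by
    have h1 : (((Real.sqrt d : ℝ) : ℂ)) ^ 2 = (d : ℂ) := by
      rw [← Complex.ofReal_pow, Real.sq_sqrt (Nat.cast_nonneg d)]
      simp
    have h2 : (a : ℂ) ^ 2 + (d : ℂ) * (b : ℂ) ^ 2 = 1 := by
      have := congrArg (fun q : ℚ => (q : ℂ)) hab
      simpa using this
    rw [hη]
    linear_combination -h2 + (b : ℂ) ^ 2 * ((Real.sqrt d : ℝ) : ℂ) ^ 2 * Complex.I_sq - (b : ℂ) ^ 2 * h1
  have hxC : (a : ℂ) * c = x := by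
    have := congrArg (fun q : ℚ => (q : ℂ)) hx
    simpa using this
  have hηM : (M : ℂ) * η ^ 2 - T * η + M = 0 := by
    have hgC : (g : ℂ) ≠ 0 := by exact_mod_cast hg.ne'
    have e1C : (2 : ℂ) * x = T * g := by exact_mod_cast e1
    have e2C : (c : ℂ) = M * g := by exact_mod_cast e2
    have h3 : (g : ℂ) * ((M : ℂ) * η ^ 2 - T * η + M) = 0 := by
      have h4 : (c : ℂ) * (η ^ 2 - 2 * (a : ℂ) * η + 1) = 0 := by rw [hq, mul_zero]
      linear_combination h4 + (2 * η) * hxC - η * (- e1C) * (-1) * (-1) - e2C * (η ^ 2 + 1)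
    exact (mul_eq_zero.mp h3).resolve_left hgC
  have hm0 : m ≠ 0 := by
    intro h0
    have hy0 : y = 0 := by
      rw [h0, mul_zero] at hm
      omega
    have hb0 : b = 0 := by
      rw [hy0] at hy
      have hcQ : (c : ℚ) ≠ 0 := by exact_mod_cast hc.ne'
      have : b * c = 0 := by rw [hy]; simp
      exact (mul_eq_zero.mp this).resolve_right hcQ
    have ha1 : a ^ 2 = 1 := by
      rw [hb0] at hab
      linarith
    have : η ^ 2 = 1 := by
      rw [hη, hb0]
      have := congrArg (fun q : ℚ => (q : ℂ)) ha1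
      simpa using this
    exact hru 2 (by norm_num) this
  have hlt : T ^ 2 < 4 * M ^ 2 := by
    have hdp : 0 < (d : ℤ) := by
      have : d ≠ 0 := hd.ne_zero
      omega
    have : 0 < (d : ℤ) * m ^ 2 := mul_pos hdp (by positivity)
    omega
  have hM2 : 2 ≤ M := by
    by_contra hcon
    have hM1 : M = 1 := by omega
    rw [hM1] at hlt hηM
    have hT1 : T < 2 := by nlinarith
    have hT2 : -2 < T := by nlinarith
    have hTc : T = -1 ∨ T = 0 ∨ T = 1 := by omega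
    rcases hTc with h | h | h
    · rw [h] at hηM
      push_cast at hηM
      apply hru 3 (by norm_num)
      linear_combination (η - 1) * hηM
    · rw [h] at hηM
      push_cast at hηM
      apply hru 4 (by norm_num)
      linear_combination (η ^ 2 - 1) * hηM
    · rw [h] at hηM
      push_cast at hηM
      apply hru 6 (by norm_num)
      linear_combination (η + 1) * (η ^ 3 - 1) * hηM
  exact ⟨T, M, m, ⟨hM2, Int.isCoprime_iff_gcd_eq_one.mpr hTM, hlt, hηM, hru⟩, hm0, hmain⟩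

end PkRED

end Pool.Agent.Helper59.LUC
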